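import Pool.Agent.P.MP_ad841b_co.Label

/-! Chebyshev `5/2`-flows for graphs with at most four defect vertices. -/

set_option autoImplicit false

open Finset

namespace Pool.Agent.Results.MP_ad841b_co.FourDefects

open Pool.Agent.P.MP_ad841b_co

lemma sum_inc {V E R : Type} [Fintype E] [DecidableEq V] [Ring R] (t h : E → V) (f : E → R)
    (v : V) : ∑ e, ((inc t h e v : ℤ) : R) * f e =
      ∑ e ∈ univ.filter (fun e => t e = v), f e - ∑ e ∈ univ.filter (fun e => h e = v), f e := by
  rw [sum_filter, sum_filter, ← sum_sub_distrib]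
  refine sum_congr rfl fun e _ => ?_
  by_cases a : t e = v <;> by_cases b : h e = v <;> simp [inc, dl, a, b]

lemma par_coord {V E : Type} [Fintype E] [DecidableEq V] (t h : E → V) (f : E → ZMod 2) (v : V) :
    par t h (univ.filter fun e => f e = 1) v = ∑ e, ((inc t h e v : ℤ) : ZMod 2) * f e := by
  rw [par, sum_filter]
  refine sum_congr rfl fun e _ => ?_
  rcases z2_cases (f e) with a | a <;> simp [a]

theorem result {V E : Type} [Fintype V] [Fintype E] [DecidableEq V] [DecidableEq E]
    (tail head : E → V)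
    (hbridge : ∀ Y : Finset V, (edgeCut tail head Y).card ≠ 1)
    (S : Finset V) (hS : S.card ≤ 4)
    (hcut : ∀ Y : Finset V, (edgeCut tail head Y).card = 3 → (∃ a ∈ S, a ∈ Y) →
      (∃ b ∈ S, b ∉ Y) → ∃ v, edgeCut tail head Y = edgeCut tail head {v})
    (c : E → ZMod 2 × ZMod 2) (hc : ∀ e, c e ≠ 0)
    (hcons : ∀ v, v ∉ S → ∑ e ∈ univ.filter (fun e => head e = v), c e =
      ∑ e ∈ univ.filter (fun e => tail e = v), c e) :
    ∃ φ : E → ℝ × ℝ,
      (∀ v, ∑ e ∈ univ.filter (fun e => head e = v), φ e =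
        ∑ e ∈ univ.filter (fun e => tail e = v), φ e) ∧
      ∀ e, 1 ≤ max |(φ e).1| |(φ e).2| ∧ max |(φ e).1| |(φ e).2| ≤ 5 / 2 - 1 := by
  have hodd : ∀ f : E → ZMod 2, (∀ v, v ∉ S → ∑ e ∈ univ.filter (fun e => head e = v), f e =
      ∑ e ∈ univ.filter (fun e => tail e = v), f e) →
      odds tail head (univ.filter fun e => f e = 1) ⊆ S := by
    intro f hf v hv
    by_contra hvS
    rw [mem_odds, par_coord, sum_inc, hf v hvS, sub_self] at hv
    exact absurd hv (by decide)
  obtain ⟨x, y, hx, hy, hxy⟩ := int_flows tail head S hS hbridge hcut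
    (univ.filter fun e => (c e).1 = 1) (univ.filter fun e => (c e).2 = 1)
    (fun e => by
      have := hc e
      rcases z2_cases (c e).1 with a | a <;> rcases z2_cases (c e).2 with b | b
      · exact absurd (Prod.ext a b) this
      all_goals simp [a, b])
    (hodd _ fun v hv => by simpa [Prod.fst_sum] using congrArg Prod.fst (hcons v hv))
    (hodd _ fun v hv => by simpa [Prod.snd_sum] using congrArg Prod.snd (hcons v hv))
  have hreal : ∀ z : E → ℤ, (∀ v, dv tail head z v = 0) → ∀ v,
      ∑ e ∈ univ.filter (fun e => head e = v), (z e : ℝ) / 2 =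
        ∑ e ∈ univ.filter (fun e => tail e = v), (z e : ℝ) / 2 := by
    intro z hz v
    have h1 := sum_inc tail head z v
    have h2 := hz v
    simp only [dv] at h2
    simp only [Int.cast_id] at h1
    rw [h2] at h1
    rw [← sum_div, ← sum_div]
    congr 1
    exact_mod_cast (sub_eq_zero.1 h1.symm).symm
  refine ⟨fun e => ((x e : ℝ) / 2, (y e : ℝ) / 2), fun v => ?_, fun e => ?_⟩
  · refine Prod.ext ?_ ?_
    · simpa [Prod.fst_sum] using hreal x hx v
    · simpa [Prod.snd_sum] using hreal y hy v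
  · obtain ⟨h1, h2, h3⟩ := hxy e
    have e1 : |(x e : ℝ) / 2| = ((|x e| : ℤ) : ℝ) / 2 := by rw [abs_div]; simp
    have e2 : |(y e : ℝ) / 2| = ((|y e| : ℤ) : ℝ) / 2 := by rw [abs_div]; simp
    have h1' : ((|x e| : ℤ) : ℝ) ≤ 3 := by exact_mod_cast h1
    have h2' : ((|y e| : ℤ) : ℝ) ≤ 3 := by exact_mod_cast h2
    dsimp only
    rw [e1, e2]
    refine ⟨?_, max_le (by linarith) (by linarith)⟩
    rcases h3 with a | a
    · have : (2 : ℝ) ≤ ((|x e| : ℤ) : ℝ) := by exact_mod_cast a
      exact le_max_of_le_left (by linarith)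
    · have : (2 : ℝ) ≤ ((|y e| : ℤ) : ℝ) := by exact_mod_cast a
      exact le_max_of_le_right (by linarith)

end Pool.Agent.Results.MP_ad841b_co.FourDefects
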